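import Pool.Agent.P8H14.CF.Stm

set_option autoImplicit false

/-!
# Project CF: Abel summation (package AB) and partial summation (package PL)
-/

namespace Pool.Agent.P8H7.CF

open Finset Filter Topology Pool.Agent.P8H14.CF

/-- Abel summation against decreasing weights -/
theorem abel_aux {w : ℕ → ℝ} {E : ℕ → ℂ} {B : ℝ} {a : ℕ} (hw0 : ∀ k, 0 ≤ w k)
    (hw : ∀ k, w (k + 1) ≤ w k) (b : ℕ) (hab : a ≤ b) (hE : ∀ k, a ≤ k + 1 → k ≤ b → ‖E k‖ ≤ B)
    (ha : 1 ≤ a) :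
    ‖∑ k ∈ Ico a (b + 1), (w k : ℂ) * (E k - E (k - 1)) - (w b : ℂ) * E b‖ ≤
      B * (2 * w a - w b) := by
  induction b, hab using Nat.le_induction with
  | base =>
    rw [Nat.Ico_succ_singleton, sum_singleton]
    have h1 : (w a : ℂ) * (E a - E (a - 1)) - (w a : ℂ) * E a = -((w a : ℂ) * E (a - 1)) := by ring
    rw [h1, norm_neg, norm_mul, Complex.norm_real, Real.norm_eq_abs, abs_of_nonneg (hw0 a)]
    have h2 : ‖E (a - 1)‖ ≤ B := hE (a - 1) (by omega) (by omega)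
    nlinarith [mul_le_mul_of_nonneg_left h2 (hw0 a)]
  | succ b hab ih =>
    have ih' := ih (fun k h1 h2 => hE k h1 (by omega))
    rw [sum_Ico_succ_top (by omega)]
    have h1 : ∑ k ∈ Ico a (b + 1), (w k : ℂ) * (E k - E (k - 1)) +
        (w (b + 1) : ℂ) * (E (b + 1) - E (b + 1 - 1)) - (w (b + 1) : ℂ) * E (b + 1) =
        (∑ k ∈ Ico a (b + 1), (w k : ℂ) * (E k - E (k - 1)) - (w b : ℂ) * E b) +
          ((w b - w (b + 1) : ℝ) : ℂ) * E b := by
      push_cast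
      ring
    rw [h1]
    refine (norm_add_le _ _).trans ?_
    have h2 : ‖((w b - w (b + 1) : ℝ) : ℂ) * E b‖ ≤ (w b - w (b + 1)) * B := by
      rw [norm_mul, Complex.norm_real, Real.norm_eq_abs, abs_of_nonneg (by linarith [hw b])]
      exact mul_le_mul_of_nonneg_left (hE b (by omega) (by omega)) (by linarith [hw b])
    nlinarith

/-- Abel summation against decreasing weights, the bound -/
theorem abel_bd {w : ℕ → ℝ} {E : ℕ → ℂ} {B : ℝ} {a b : ℕ} (hw0 : ∀ k, 0 ≤ w k)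
    (hw : ∀ k, w (k + 1) ≤ w k) (hB : 0 ≤ B) (hE : ∀ k, a ≤ k + 1 → k < b → ‖E k‖ ≤ B)
    (ha : 1 ≤ a) : ‖∑ k ∈ Ico a b, (w k : ℂ) * (E k - E (k - 1))‖ ≤ 2 * B * w a := by
  rcases Nat.lt_or_ge a b with hab | hab
  · obtain ⟨c, rfl⟩ : ∃ c, b = c + 1 := ⟨b - 1, by omega⟩
    have h1 := abel_aux hw0 hw c (by omega) (fun k h1 h2 => hE k h1 (by omega)) ha
    have h2 : ‖(w c : ℂ) * E c‖ ≤ w c * B := by
      rw [norm_mul, Complex.norm_real, Real.norm_eq_abs, abs_of_nonneg (hw0 c)]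
      exact mul_le_mul_of_nonneg_left (hE c (by omega) (by omega)) (hw0 c)
    have h3 : ∑ k ∈ Ico a (c + 1), (w k : ℂ) * (E k - E (k - 1)) =
        (∑ k ∈ Ico a (c + 1), (w k : ℂ) * (E k - E (k - 1)) - (w c : ℂ) * E c) +
          (w c : ℂ) * E c := by ring
    rw [h3]
    refine (norm_add_le _ _).trans ?_
    nlinarith
  · rw [Ico_eq_empty_of_le hab, sum_empty, norm_zero]
    exact mul_nonneg (by linarith) (hw0 a)

/-! ### the weights -/

theorem rt_F (n : ℕ) : rt (F n : ℕ) = n := by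
  unfold rt F
  push_cast
  have : ((n : ℝ) ^ 2 + n + 1 / 4) = ((n : ℝ) + 1 / 2) ^ 2 := by ring
  rw [this, Real.sqrt_sq (by positivity)]
  ring

theorem wt_eq (k : ℕ) : wt k = 1 / (√((k : ℝ) + 1 + 1 / 4) + √((k : ℝ) + 1 / 4)) := by
  unfold wt rt
  have h1 : 0 < √((k : ℝ) + 1 + 1 / 4) := Real.sqrt_pos.2 (by positivity)
  have h2 : 0 < √((k : ℝ) + 1 / 4) := Real.sqrt_pos.2 (by positivity)
  rw [eq_div_iff (by positivity)]
  have h3 : √((k : ℝ) + 1 + 1 / 4) * √((k : ℝ) + 1 + 1 / 4) = (k : ℝ) + 1 + 1 / 4 :=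
    Real.mul_self_sqrt (by positivity)
  have h4 : √((k : ℝ) + 1 / 4) * √((k : ℝ) + 1 / 4) = (k : ℝ) + 1 / 4 :=
    Real.mul_self_sqrt (by positivity)
  ring_nf at h3 h4 ⊢
  nlinarith

theorem wt_nonneg (k : ℕ) : 0 ≤ wt k := by
  rw [wt_eq]; positivity

theorem wt_anti (k : ℕ) : wt (k + 1) ≤ wt k := by
  rw [wt_eq, wt_eq]
  have h1 : 0 < √((k : ℝ) + 1 + 1 / 4) := Real.sqrt_pos.2 (by positivity)
  have h2 : 0 < √((k : ℝ) + 1 / 4) := Real.sqrt_pos.2 (by positivity)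
  push_cast
  apply one_div_le_one_div_of_le (by positivity)
  gcongr <;> linarith

theorem wt_le (n : ℕ) : wt (F n) ≤ 1 / (2 * n + 1) := by
  rw [wt_eq]
  apply one_div_le_one_div_of_le (by positivity)
  have h1 : √(((F n : ℕ) : ℝ) + 1 / 4) = n + 1 / 2 := by
    have : (((F n : ℕ) : ℝ) + 1 / 4) = ((n : ℝ) + 1 / 2) ^ 2 := by unfold F; push_cast; ring
    rw [this, Real.sqrt_sq (by positivity)]
  have h2 : √(((F n : ℕ) : ℝ) + 1 / 4) ≤ √(((F n : ℕ) : ℝ) + 1 + 1 / 4) :=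
    Real.sqrt_le_sqrt (by linarith)
  linarith

theorem sum_wt {a b : ℕ} (hab : a ≤ b) : ∑ k ∈ Ico a b, wt k = rt b - rt a := by
  induction b, hab using Nat.le_induction with
  | base => simp
  | succ b hab ih =>
    rw [sum_Ico_succ_top hab, ih]
    unfold wt
    push_cast
    ring

theorem F_mono {a b : ℕ} (h : a ≤ b) : F a ≤ F b := by
  unfold F; gcongr

theorem e_add (x y : ℝ) : e (x + y) = e x * e y := by
  unfold e
  rw [← Complex.exp_add]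
  congr 1
  push_cast
  ring

/-- package AB -/
theorem ab : S_AB := by
  intro f Q A x0 x W s hx0 hx hW hyp
  set D : ℕ → ℂ := fun k => (f (k + A) : ℂ) *
    ∑ q ∈ Icc 1 Q, ∑ a ∈ rr q, G a q / q * e (-((a : ℝ) * k / q)) with hD
  set S : ℕ → ℂ := fun M => ∑ q ∈ Icc 1 Q, ∑ a ∈ rr q, G a q / q * e ((a : ℝ) * A / q) *
        ∑ m ∈ Icc 1 M, (f m : ℂ) * e (-((a : ℝ) * m / q)) with hS
  have hstep : ∀ k : ℕ, S (k + 1 + A) - S (k + A) = D (k + 1) := by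
    intro k
    simp only [hS, hD]
    rw [← sum_sub_distrib, mul_sum]
    refine sum_congr rfl fun q _ => ?_
    rw [← sum_sub_distrib, mul_sum]
    refine sum_congr rfl fun a _ => ?_
    rw [show k + 1 + A = (k + A) + 1 by ring, sum_Icc_succ_top (by omega), ← mul_sub,
      add_sub_cancel_left]
    have h1 : e (-((a : ℝ) * ((k + 1 : ℕ) : ℝ) / q)) =
        e ((a : ℝ) * A / q) * e (-((a : ℝ) * ((k + A + 1 : ℕ) : ℝ) / q)) := by
      rw [← e_add]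
      congr 1
      push_cast
      ring
    rw [h1]
    ring
  set E : ℕ → ℂ := fun k => S (k + A) - S A - ((s * k : ℝ) : ℂ) with hE
  have hEb : ∀ k, k ≤ F x → ‖E k‖ ≤ 2 * W := by
    intro k hk
    have h1 := hyp (k + A) (by omega)
    have h2 := hyp A (by omega)
    have h3 : E k = (S (k + A) - ((s * ((k + A : ℕ) : ℝ) : ℝ) : ℂ)) - (S A - ((s * (A : ℝ) : ℝ) : ℂ)) := by
      simp only [hE]
      push_cast
      ring
    rw [h3]
    refine (norm_sub_le _ _).trans ?_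
    have h4 : ‖S (k + A) - ((s * ((k + A : ℕ) : ℝ) : ℝ) : ℂ)‖ ≤ W := h1
    have h5 : ‖S A - ((s * (A : ℝ) : ℝ) : ℂ)‖ ≤ W := h2
    linarith
  have hF0 : 1 ≤ F x0 := by unfold F; nlinarith
  have hFx : F x0 ≤ F x := F_mono hx
  have hDE : ∀ k ∈ Ico (F x0) (F x), (wt k : ℂ) * (f (k + A) : ℂ) *
        ∑ q ∈ Icc 1 Q, ∑ a ∈ rr q, G a q / q * e (-((a : ℝ) * k / q)) =
        (wt k : ℂ) * (E k - E (k - 1)) + (wt k : ℂ) * (s : ℂ) := by
    intro k hk
    obtain ⟨j, rfl⟩ : ∃ j, k = j + 1 := ⟨k - 1, by have := (mem_Ico.1 hk).1; omega⟩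
    have h1 := hstep j
    have h2 : (wt (j + 1) : ℂ) * (f (j + 1 + A) : ℂ) *
        ∑ q ∈ Icc 1 Q, ∑ a ∈ rr q, G a q / q * e (-((a : ℝ) * ((j + 1 : ℕ) : ℝ) / q)) =
        (wt (j + 1) : ℂ) * D (j + 1) := by
      simp only [hD]
      ring
    rw [h2, ← h1]
    simp only [hE, Nat.add_sub_cancel]
    push_cast
    ring
  rw [sum_congr rfl hDE, sum_add_distrib, ← sum_mul]
  have hs : ∑ k ∈ Ico (F x0) (F x), (wt k : ℂ) = ((x : ℝ) - x0 : ℝ) := by
    rw [← Complex.ofReal_sum, sum_wt hFx, rt_F, rt_F]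
  rw [hs]
  have h5 : ∑ k ∈ Ico (F x0) (F x), (wt k : ℂ) * (E k - E (k - 1)) + (((x : ℝ) - x0 : ℝ) : ℂ) * (s : ℂ) -
      ((s * (x - x0) : ℝ) : ℂ) = ∑ k ∈ Ico (F x0) (F x), (wt k : ℂ) * (E k - E (k - 1)) := by
    push_cast
    ring
  rw [h5]
  have h6 := abel_bd (w := wt) (E := E) (B := 2 * W) (a := F x0) (b := F x) wt_nonneg wt_anti
    (by linarith) (fun k _ h2 => hEb k h2.le) hF0
  refine h6.trans ?_
  have hx0' : (1 : ℝ) ≤ x0 := by exact_mod_cast hx0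
  have h7 : wt (F x0) ≤ 1 / x0 := (wt_le x0).trans (one_div_le_one_div_of_le (by linarith) (by linarith))
  have h8 : 2 * (2 * W) * wt (F x0) ≤ 2 * (2 * W) * (1 / x0) :=
    mul_le_mul_of_nonneg_left h7 (by linarith)
  have h9 : 2 * (2 * W) * (1 / (x0 : ℝ)) = 4 * W / x0 := by ring
  linarith [abs_nonneg s]

end Pool.Agent.P8H7.CF
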