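import Pool.Agent.P8H7.CF.Ab

set_option autoImplicit false

/-!
# Project CF: duality (package DU)
-/

namespace Pool.Agent.P8H7.CF

open Finset Filter Topology Pool.Agent.P8H14.CF ComplexConjugate

theorem e_int (n : ℤ) : e (n : ℝ) = 1 := by
  unfold e
  rw [Complex.exp_eq_one_iff]
  exact ⟨n, by push_cast; ring⟩

theorem e_zero : e 0 = 1 := by simpa using e_int 0

theorem e_conj (x : ℝ) : conj (e x) = e (-x) := by
  unfold e
  rw [← Complex.exp_conj]
  congr 1
  rw [map_mul, map_mul, map_mul, Complex.conj_I, Complex.conj_ofReal, Complex.conj_ofReal, map_ofNat]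
  push_cast
  ring

theorem e_nat_mul (x : ℝ) (n : ℕ) : e (x * n) = e x ^ n := by
  unfold e
  rw [← Complex.exp_nat_mul]
  congr 1
  push_cast
  ring

theorem e_eq_one {x : ℝ} (h : e x = 1) : ∃ n : ℤ, x = n := by
  unfold e at h
  rw [Complex.exp_eq_one_iff] at h
  obtain ⟨n, hn⟩ := h
  refine ⟨n, ?_⟩
  have hpi : (Real.pi : ℂ) ≠ 0 := by exact_mod_cast Real.pi_ne_zero
  have h2 : (2 * (Real.pi : ℂ) * Complex.I) ≠ 0 :=
    mul_ne_zero (mul_ne_zero two_ne_zero hpi) Complex.I_ne_zero
  have h3 : ((x : ℂ) - n) * (2 * Real.pi * Complex.I) = 0 := by linear_combination hn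
  rcases mul_eq_zero.1 h3 with h4 | h4
  · have : (x : ℂ) = ((n : ℝ) : ℂ) := by push_cast; linear_combination h4
    exact_mod_cast this
  · exact absurd h4 h2

/-- orthogonality -/
theorem orth {M : ℕ} (hM : 0 < M) (j : ℤ) :
    ∑ t ∈ range M, e ((j : ℝ) * t / M) = if (M : ℤ) ∣ j then (M : ℂ) else 0 := by
  have hM' : (M : ℝ) ≠ 0 := by positivity
  split_ifs with h
  · obtain ⟨i, rfl⟩ := h
    rw [sum_congr rfl (g := fun _ => (1 : ℂ))]
    · simp
    · intro t _
      have : (((M : ℤ) * i : ℤ) : ℝ) * t / M = ((i * t : ℤ) : ℝ) := by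
        push_cast
        field_simp
      rw [this, e_int]
  · have hne : e ((j : ℝ) / M) ≠ 1 := by
      intro h1
      obtain ⟨n, hn⟩ := e_eq_one h1
      apply h
      refine ⟨n, ?_⟩
      have h2 : (j : ℝ) = M * n := by
        rw [div_eq_iff hM'] at hn
        linarith
      exact_mod_cast h2
    have h1 : ∀ t ∈ range M, e ((j : ℝ) * t / M) = e ((j : ℝ) / M) ^ t := by
      intro t _
      rw [← e_nat_mul]
      congr 1
      ring
    rw [sum_congr rfl h1]
    have h2 : (e ((j : ℝ) / M) - 1) * ∑ t ∈ range M, e ((j : ℝ) / M) ^ t = 0 := by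
      rw [mul_comm, geom_sum_mul, ← e_nat_mul]
      have : (j : ℝ) / M * M = (j : ℝ) := by field_simp
      rw [this, e_int, sub_self]
    exact (mul_eq_zero.1 h2).resolve_left (sub_ne_zero.2 hne)

/-- Parseval -/
theorem parseval {M : ℕ} (hM : 0 < M) (c : ℕ → ℂ) :
    ∑ A ∈ range M, ‖∑ t ∈ range M, c t * e ((A : ℝ) * t / M)‖ ^ 2 = M * ∑ t ∈ range M, ‖c t‖ ^ 2 := by
  have key : ((∑ A ∈ range M, ‖∑ t ∈ range M, c t * e ((A : ℝ) * t / M)‖ ^ 2 : ℝ) : ℂ) =
      ((M * ∑ t ∈ range M, ‖c t‖ ^ 2 : ℝ) : ℂ) := by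
    push_cast
    have h1 : ∀ A ∈ range M, ((‖∑ t ∈ range M, c t * e ((A : ℝ) * t / M)‖ : ℝ) : ℂ) ^ 2 =
        ∑ t ∈ range M, ∑ s ∈ range M, c t * conj (c s) * e ((((t : ℤ) - (s : ℤ) : ℤ) : ℝ) * A / M) := by
      intro A _
      rw [← Complex.mul_conj', map_sum, sum_mul_sum]
      refine sum_congr rfl fun t _ => sum_congr rfl fun s _ => ?_
      rw [map_mul, e_conj]
      have : e ((((t : ℤ) - (s : ℤ) : ℤ) : ℝ) * A / M) =
          e ((A : ℝ) * t / M) * e (-((A : ℝ) * s / M)) := by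
        rw [← e_add]
        congr 1
        push_cast
        ring
      rw [this]
      ring
    rw [sum_congr rfl h1, sum_comm, mul_sum]
    refine sum_congr rfl fun t ht => ?_
    rw [sum_comm]
    have h2 : ∀ s ∈ range M, ∑ A ∈ range M,
        c t * conj (c s) * e ((((t : ℤ) - (s : ℤ) : ℤ) : ℝ) * A / M) =
        if s = t then (M : ℂ) * (c t * conj (c s)) else 0 := by
      intro s hs
      rw [← mul_sum, orth hM]
      have ht' := mem_range.1 ht
      have hs' := mem_range.1 hs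
      by_cases hst : s = t
      · subst hst
        simp
        ring
      · rw [if_neg hst, if_neg, mul_zero]
        intro hd
        apply hst
        have h3 := Int.eq_zero_of_abs_lt_dvd hd (by rw [abs_lt]; constructor <;> omega)
        omega
    rw [sum_congr rfl h2, sum_ite_eq' (range M) t, if_pos ht, Complex.mul_conj']
  exact_mod_cast key

/-- package DU -/
theorem du : S_DU := by
  intro f Q N x0 x M E U B₀ Φ hE hU hx hM hR hΦ hyp
  have hM0 : 0 < M := by omega
  have hMr : (M : ℝ) ≠ 0 := by positivity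
  have hMc : (M : ℂ) ≠ 0 := by exact_mod_cast hMr
  have hFm : ∀ n ∈ Ioc x0 x, F n ≤ F x := fun n hn => F_mono (mem_Ioc.1 hn).2
  set m2 : ℕ → ℂ := fun k => ∑ q ∈ Icc 1 Q, ∑ a ∈ rr q, G a q / q * e (-((a : ℝ) * k / q)) with hm2
  -- the function `r₂`
  set r : ℕ → ℂ := fun k => (∑ n ∈ Ioc x0 x, if F n = k then (1 : ℂ) else 0) -
    (if k ∈ Ico (F x0) (F x) then (wt k : ℂ) * m2 k else 0) with hr
  have hsum : ∀ g : ℕ → ℂ, ∑ k ∈ range M, r k * g k =
      ∑ n ∈ Ioc x0 x, g (F n) - ∑ k ∈ Ico (F x0) (F x), (wt k : ℂ) * m2 k * g k := by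
    intro g
    simp only [hr, sub_mul]
    rw [sum_sub_distrib]
    congr 1
    · simp only [sum_mul]
      rw [sum_comm]
      refine sum_congr rfl fun n hn => ?_
      have h1 : ∀ k ∈ range M, (if F n = k then (1 : ℂ) else 0) * g k = if k = F n then g k else 0 := by
        intro k _
        by_cases hk : F n = k
        · rw [if_pos hk, if_pos hk.symm, one_mul]
        · rw [if_neg hk, if_neg (Ne.symm hk), zero_mul]
      rw [sum_congr rfl h1, sum_ite_eq' (range M) (F n), if_pos]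
      have := hFm n hn
      rw [mem_range]
      omega
    · simp only [ite_mul, zero_mul]
      rw [← sum_filter]
      refine sum_congr ?_ fun _ _ => rfl
      ext k
      simp only [mem_filter, mem_range, mem_Ico]
      constructor
      · exact fun h => h.2
      · exact fun h => ⟨by omega, h⟩
  set ft : ℕ → ℂ := fun m => if m ∈ Icc 1 (N + F x) then (f m : ℂ) else 0 with hft
  set fh : ℕ → ℂ := fun t => ∑ m ∈ range M, ft m * e (-((t : ℝ) * m / M)) with hfh
  set R : ℕ → ℂ := fun t => ∑ k ∈ range M, r k * e ((t : ℝ) / M * k) with hRd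
  have hRb : ∀ t, t < M → ‖R t‖ ≤ B₀ := by
    intro t ht
    have h1 := hR t ht
    have h2 : R t = T x0 x ((t : ℝ) / M) - TM Q x0 x ((t : ℝ) / M) := by
      simp only [hRd]
      rw [hsum]
      congr 1
      unfold TM V
      simp only [mul_sum]
      symm
      rw [sum_congr rfl fun q _ => sum_comm, sum_comm]
      refine sum_congr rfl fun k _ => ?_
      simp only [hm2]
      rw [mul_sum, sum_mul]
      refine sum_congr rfl fun q _ => ?_
      rw [mul_sum, sum_mul]
      refine sum_congr rfl fun a _ => ?_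
      have h3 : e (((t : ℝ) / M - a / q) * k) = e (-((a : ℝ) * k / q)) * e ((t : ℝ) / M * k) := by
        rw [← e_add]
        congr 1
        ring
      rw [h3]
      ring
    rw [h2]
    exact h1
  -- the correlation
  set h : ℕ → ℂ := fun A => ∑ t ∈ range M, (R t * fh t) * e ((A : ℝ) * t / M) with hh
  have hcor : ∀ A ∈ Icc 1 N, h A = M * ∑ k ∈ range M, r k * (if k ≤ F x then (f (k + A) : ℂ) else 0) := by
    intro A hA
    have hA1 := mem_Icc.1 hA
    simp only [hh, hRd, hfh]
    have h1 : ∀ t ∈ range M, (∑ k ∈ range M, r k * e ((t : ℝ) / M * k)) *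
        (∑ m ∈ range M, ft m * e (-((t : ℝ) * m / M))) * e ((A : ℝ) * t / M) =
        ∑ k ∈ range M, ∑ m ∈ range M, r k * ft m *
          e ((((k : ℤ) + (A : ℤ) - (m : ℤ) : ℤ) : ℝ) * t / M) := by
      intro t _
      rw [sum_mul_sum, sum_mul]
      refine sum_congr rfl fun k _ => ?_
      rw [sum_mul]
      refine sum_congr rfl fun m _ => ?_
      have h2 : e ((((k : ℤ) + (A : ℤ) - (m : ℤ) : ℤ) : ℝ) * t / M) =
          e ((t : ℝ) / M * k) * e (-((t : ℝ) * m / M)) * e ((A : ℝ) * t / M) := by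
        rw [← e_add, ← e_add]
        congr 1
        push_cast
        ring
      rw [h2]
      ring
    rw [sum_congr rfl h1, sum_comm, mul_sum]
    refine sum_congr rfl fun k hk => ?_
    rw [sum_comm]
    have hk' := mem_range.1 hk
    by_cases hkF : k ≤ F x
    · rw [if_pos hkF]
      have h3 : ∀ m ∈ range M, ∑ t ∈ range M, r k * ft m *
          e ((((k : ℤ) + (A : ℤ) - (m : ℤ) : ℤ) : ℝ) * t / M) =
          if m = k + A then (M : ℂ) * (r k * ft m) else 0 := by
        intro m hm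
        have hm' := mem_range.1 hm
        rw [← mul_sum, orth hM0]
        by_cases hmk : m = k + A
        · rw [if_pos hmk, if_pos]
          · ring
          · subst hmk; push_cast; simp
        · rw [if_neg hmk]
          by_cases hmN : m ∈ Icc 1 (N + F x)
          · rw [if_neg, mul_zero]
            intro hd
            apply hmk
            have hmN' := mem_Icc.1 hmN
            have h4 := Int.eq_zero_of_abs_lt_dvd hd (by rw [abs_lt]; constructor <;> omega)
            omega
          · have : ft m = 0 := by simp only [hft]; rw [if_neg hmN]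
            rw [this]
            simp
      rw [sum_congr rfl h3, sum_ite_eq' (range M) (k + A), if_pos (by rw [mem_range]; omega)]
      have : ft (k + A) = (f (k + A) : ℂ) := by
        simp only [hft]
        rw [if_pos (by rw [mem_Icc]; omega)]
      rw [this]
    · have hr0 : r k = 0 := by
        simp only [hr]
        have e1 : ∑ n ∈ Ioc x0 x, (if F n = k then (1 : ℂ) else 0) = 0 := by
          refine sum_eq_zero fun n hn => ?_
          rw [if_neg]
          have := hFm n hn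
          omega
        rw [e1, if_neg (by rw [mem_Ico]; omega), sub_zero]
      simp [hr0]
  have hlow : ∀ A ∈ E, (M : ℝ) ^ 2 * U ^ 2 ≤ ‖h A‖ ^ 2 := by
    intro A hA
    have hAN := hE hA
    have h1 := hyp A hA
    rw [hcor A hAN, hsum, norm_mul, mul_pow, Complex.norm_natCast]
    have h2 : ∑ n ∈ Ioc x0 x, (if F n ≤ F x then (f (F n + A) : ℂ) else 0) -
        ∑ k ∈ Ico (F x0) (F x), (wt k : ℂ) * m2 k * (if k ≤ F x then (f (k + A) : ℂ) else 0) =
        ∑ n ∈ Ioc x0 x, (f (F n + A) : ℂ) - ∑ k ∈ Ico (F x0) (F x), (wt k : ℂ) * (f (k + A) : ℂ) *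
        ∑ q ∈ Icc 1 Q, ∑ a ∈ rr q, G a q / q * e (-((a : ℝ) * k / q)) := by
      congr 1
      · refine sum_congr rfl fun n hn => ?_
        rw [if_pos (hFm n hn)]
      · refine sum_congr rfl fun k hk => ?_
        rw [if_pos (mem_Ico.1 hk).2.le]
        simp only [hm2]
        ring
    rw [h2]
    gcongr
  have hP1 := parseval hM0 (fun t => R t * fh t)
  have hP2 := parseval hM0 (fun m => conj (ft m))
  have hfb : ∑ t ∈ range M, ‖fh t‖ ^ 2 = M * ∑ m ∈ Icc 1 (N + F x), f m ^ 2 := by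
    have e1 : ∀ t ∈ range M, ‖fh t‖ ^ 2 =
        ‖∑ m ∈ range M, conj (ft m) * e ((t : ℝ) * m / M)‖ ^ 2 := by
      intro t _
      rw [← Complex.norm_conj (fh t)]
      simp only [hfh, map_sum, map_mul, e_conj, neg_neg]
    rw [sum_congr rfl e1, hP2]
    congr 1
    have e2 : ∀ m ∈ range M, ‖conj (ft m)‖ ^ 2 = if m ∈ Icc 1 (N + F x) then f m ^ 2 else 0 := by
      intro m _
      rw [Complex.norm_conj]
      simp only [hft]
      split_ifs
      · rw [Complex.norm_real, Real.norm_eq_abs, sq_abs]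
      · simp
    rw [sum_congr rfl e2, ← sum_filter]
    refine sum_congr ?_ fun _ _ => rfl
    ext m
    simp only [mem_filter, mem_range, mem_Icc]
    constructor
    · exact fun h => h.2
    · exact fun h => ⟨by omega, h⟩
  have hup : ∑ t ∈ range M, ‖R t * fh t‖ ^ 2 ≤ B₀ ^ 2 * (M * Φ) := by
    have h1 : ∑ t ∈ range M, ‖R t * fh t‖ ^ 2 ≤ ∑ t ∈ range M, B₀ ^ 2 * ‖fh t‖ ^ 2 := by
      refine sum_le_sum fun t ht => ?_
      rw [norm_mul, mul_pow]
      have := hRb t (mem_range.1 ht)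
      gcongr
    rw [← mul_sum, hfb] at h1
    refine h1.trans ?_
    gcongr
  have hsub : E ⊆ range M := by
    intro A hA
    have := mem_Icc.1 (hE hA)
    rw [mem_range]
    omega
  have hfin : (E.card : ℝ) * ((M : ℝ) ^ 2 * U ^ 2) ≤ M * (B₀ ^ 2 * (M * Φ)) := by
    calc (E.card : ℝ) * ((M : ℝ) ^ 2 * U ^ 2) = ∑ _A ∈ E, ((M : ℝ) ^ 2 * U ^ 2) := by
          rw [sum_const, nsmul_eq_mul]
      _ ≤ ∑ A ∈ E, ‖h A‖ ^ 2 := sum_le_sum hlow
      _ ≤ ∑ A ∈ range M, ‖h A‖ ^ 2 := sum_le_sum_of_subset_of_nonneg hsub fun _ _ _ => by positivity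
      _ = M * ∑ t ∈ range M, ‖R t * fh t‖ ^ 2 := hP1
      _ ≤ M * (B₀ ^ 2 * (M * Φ)) := by gcongr
  have hMp : (0 : ℝ) < (M : ℝ) ^ 2 := by positivity
  have : (M : ℝ) ^ 2 * ((E.card : ℝ) * U ^ 2) ≤ (M : ℝ) ^ 2 * (B₀ ^ 2 * Φ) := by nlinarith
  exact le_of_mul_le_mul_left this hMp

end Pool.Agent.P8H7.CF
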