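import Pool.Agent.P8H7.CF.Ab

set_option autoImplicit false

/-!
# Project CF: partial summation (package PL)
-/

namespace Pool.Agent.P8H7.CF

open Finset Filter Topology Pool.Agent.P8H14.CF

/-- package PL -/
theorem pl : S_PL := by
  intro A n S W hA hS hyp
  have hA' : (3 : ℝ) ≤ A := by exact_mod_cast hA
  have hlog3 : 1 ≤ Real.log 3 := by
    rw [Real.le_log_iff_exp_le (by norm_num)]
    linarith [Real.exp_one_lt_d9]
  set g : ℕ → ℝ := fun x => 1 / Real.log ((F x + A : ℕ) : ℝ) with hg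
  set gr : ℝ → ℝ := fun x => 1 / Real.log (x ^ 2 + x + A) with hgr
  have hlog : ∀ x : ℝ, 0 ≤ x → 1 ≤ Real.log (x ^ 2 + x + A) := fun x hx =>
    hlog3.trans (Real.log_le_log (by norm_num) (by nlinarith))
  have hgg : ∀ x : ℕ, g x = gr x := by
    intro x
    simp only [hg, hgr]
    unfold F
    push_cast
    rfl
  have hanti : ∀ x y : ℝ, 0 ≤ x → x ≤ y → gr y ≤ gr x := by
    intro x y hx hxy
    simp only [hgr]
    apply one_div_le_one_div_of_le (by linarith [hlog x hx])
    apply Real.log_le_log (by nlinarith)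
    nlinarith
  have hgr0 : ∀ x : ℝ, 0 ≤ x → 0 ≤ gr x := fun x hx => by
    simp only [hgr]
    have := hlog x hx
    positivity
  have hgr1 : ∀ x : ℝ, 0 ≤ x → gr x ≤ 1 := fun x hx => by
    simp only [hgr]
    rw [div_le_one (by linarith [hlog x hx])]
    exact hlog x hx
  have hg0 : ∀ k, 0 ≤ g k := fun k => by rw [hgg]; exact hgr0 _ (by positivity)
  have hganti : ∀ k, g (k + 1) ≤ g k := fun k => by
    rw [hgg, hgg]; exact hanti _ _ (by positivity) (by push_cast; linarith)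
  have hW : 0 ≤ W := by
    have := hyp 0 (by omega)
    simp at this
    linarith [abs_nonneg (0 : ℝ)]
  -- the number of primes
  have hPA : (PA A n : ℝ) = (if A.Prime then 1 else 0) + ∑ x ∈ Ico 1 (n + 1), g x * th (F x + A) := by
    unfold PA
    rw [card_filter]
    push_cast
    rw [range_eq_Ico, sum_eq_sum_Ico_succ_bot (by omega)]
    congr 1
    · simp [F]
    · refine sum_congr rfl fun x hx => ?_
      simp only [hg]
      unfold th
      split_ifs with h
      · have : Real.log ((F x + A : ℕ) : ℝ) ≠ 0 := by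
          have h1 := hlog x (by positivity)
          have h2 : ((F x + A : ℕ) : ℝ) = (x : ℝ) ^ 2 + x + A := by unfold F; push_cast; ring
          rw [h2]
          linarith
        field_simp
      · simp
  set E : ℕ → ℂ := fun X => ((∑ x ∈ Icc 1 X, th (F x + A) - 2 * S * X : ℝ) : ℂ) with hE
  have hEb : ∀ k, k ≤ n → ‖E k‖ ≤ W := by
    intro k hk
    simp only [hE]
    rw [Complex.norm_real, Real.norm_eq_abs]
    exact hyp k hk
  have h6 := abel_bd (w := g) (E := E) (B := W) (a := 1) (b := n + 1) hg0 hganti hW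
    (fun k _ h2 => hEb k (by omega)) le_rfl
  have h7 : ∑ k ∈ Ico 1 (n + 1), (g k : ℂ) * (E k - E (k - 1)) =
      ((∑ x ∈ Ico 1 (n + 1), g x * th (F x + A) - 2 * S * ∑ x ∈ Ico 1 (n + 1), g x : ℝ) : ℂ) := by
    rw [mul_sum, ← sum_sub_distrib, Complex.ofReal_sum]
    refine sum_congr rfl fun k hk => ?_
    obtain ⟨j, rfl⟩ : ∃ j, k = j + 1 := ⟨k - 1, by have := (mem_Ico.1 hk).1; omega⟩
    simp only [hE, Nat.add_sub_cancel]
    rw [sum_Icc_succ_top (by omega)]
    push_cast
    ring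
  rw [h7, Complex.norm_real, Real.norm_eq_abs] at h6
  have h8 : g 1 ≤ 1 := by rw [hgg]; exact hgr1 _ (by positivity)
  have h9 : |∑ x ∈ Ico 1 (n + 1), g x * th (F x + A) - 2 * S * ∑ x ∈ Ico 1 (n + 1), g x| ≤ 2 * W := by
    refine h6.trans ?_
    nlinarith
  -- the integral
  have hmono : AntitoneOn gr (Set.Icc (0 : ℝ) ((0 : ℝ) + n)) := fun x hx y hy hxy => hanti x y hx.1 hxy
  have i1 := hmono.sum_le_integral
  have i2 := hmono.integral_le_sum
  simp only [zero_add] at i1 i2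
  have s1 : ∑ x ∈ Ico 1 (n + 1), g x = ∑ i ∈ range n, gr ((i + 1 : ℕ) : ℝ) := by
    rw [range_eq_Ico, ← sum_Ico_add' g 0 n 1]
    refine sum_congr rfl fun x _ => hgg _
  have s2 : ∑ i ∈ range n, gr (i : ℝ) = ∑ i ∈ range n, gr ((i + 1 : ℕ) : ℝ) + gr 0 - gr n := by
    have h1 := sum_range_succ (fun i : ℕ => gr (i : ℝ)) n
    have h2 := sum_range_succ' (fun i : ℕ => gr (i : ℝ)) n
    push_cast at h1 h2 ⊢
    linarith
  have hLA : LA A n = 2 * ∫ x in (0 : ℝ)..n, gr x := rfl
  set I := ∫ x in (0 : ℝ)..n, gr x with hI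
  set Sg := ∑ x ∈ Ico 1 (n + 1), g x with hSg
  have b1 : Sg ≤ I := by rw [s1]; exact i1
  have b2 : I ≤ Sg + 1 := by
    have := hgr1 0 le_rfl
    have := hgr0 (n : ℝ) (by positivity)
    rw [s1]
    linarith
  rw [hPA, hLA]
  have c1 : (0 : ℝ) ≤ (if A.Prime then 1 else 0) ∧ (if A.Prime then (1 : ℝ) else 0) ≤ 1 := by
    split_ifs <;> norm_num
  rw [abs_le] at h9 ⊢
  constructor
  · nlinarith [h9.1, h9.2, c1.1, c1.2, mul_le_mul_of_nonneg_left b1 hS, mul_le_mul_of_nonneg_left b2 hS]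
  · nlinarith [h9.1, h9.2, c1.1, c1.2, mul_le_mul_of_nonneg_left b1 hS, mul_le_mul_of_nonneg_left b2 hS]

end Pool.Agent.P8H7.CF
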